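import Mathlib
import Pool.Agent.Work.MP_af7016_co.Main

namespace Pool.Agent.Results.MP_af7016_co.IntegerRatio

open Filter Topology

/-- `F` is a `k`-term geometric progression `{a, a r, ..., a r ^ (k - 1)}`, with `a` a positive
integer and `r ≥ 2` an integer. -/
def IsGP (k : ℕ) (F : Finset ℕ) : Prop :=
  ∃ a r : ℕ, 1 ≤ a ∧ 2 ≤ r ∧ F = (Finset.range k).image fun i => a * r ^ i

/-- `𝓕` is a `k`-GP cover of `{1, ..., N}`. -/
def IsCover (k N : ℕ) (𝓕 : Finset (Finset ℕ)) : Prop :=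
  (∀ F ∈ 𝓕, IsGP k F) ∧ ∀ n ∈ Finset.Icc 1 N, ∃ F ∈ 𝓕, n ∈ F

/-- `m k N` is the smallest size of a `k`-GP cover of `{1, ..., N}`. -/
noncomputable def m (k N : ℕ) : ℕ :=
  sInf {s | ∃ 𝓕 : Finset (Finset ℕ), IsCover k N 𝓕 ∧ 𝓕.card = s}

/-- The lower and the upper densities of optimal covers both tend to `1 / 2` as `k → ∞`. -/
theorem result :
    Tendsto (fun k : ℕ => liminf (fun N : ℕ => (m k N : ℝ) / N) atTop) atTop (𝓝 (1 / 2)) ∧
    Tendsto (fun k : ℕ => limsup (fun N : ℕ => (m k N : ℝ) / N) atTop) atTop (𝓝 (1 / 2)) := by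
  refine Pool.Agent.Work.MP_af7016_co.tendsto_half IsGP (fun k a ha => ⟨a, 2, ha, le_rfl, rfl⟩) ?_
  rintro k F ⟨a, r, ha, hr, rfl⟩
  refine ⟨a, r, by exact_mod_cast ha, by exact_mod_cast hr, ?_⟩
  rw [Finset.image_image]
  congr 1
  ext i
  simp

end Pool.Agent.Results.MP_af7016_co.IntegerRatio
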