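import Mathlib
import Pool.Agent.Work.MP_af7016_co.Main

namespace Pool.Agent.Results.MP_af7016_co.RationalRatio

open Filter Topology

/-- `F` is a set of positive integers that is a `k`-term geometric progression
`{a, a r, ..., a r ^ (k - 1)}` with a rational common ratio `r > 1`. -/
def IsRatGP (k : ℕ) (F : Finset ℕ) : Prop :=
  ∃ a r : ℚ, 0 < a ∧ 1 < r ∧
    F.image (fun n : ℕ => (n : ℚ)) = (Finset.range k).image fun i => a * r ^ i

/-- `𝓕` is a cover of `{1, ..., N}` by `k`-term progressions of integers with rational ratio. -/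
def IsRatCover (k N : ℕ) (𝓕 : Finset (Finset ℕ)) : Prop :=
  (∀ F ∈ 𝓕, IsRatGP k F) ∧ ∀ n ∈ Finset.Icc 1 N, ∃ F ∈ 𝓕, n ∈ F

/-- `mRat k N` is the smallest size of such a cover of `{1, ..., N}`. -/
noncomputable def mRat (k N : ℕ) : ℕ :=
  sInf {s | ∃ 𝓕 : Finset (Finset ℕ), IsRatCover k N 𝓕 ∧ 𝓕.card = s}

/-- The lower and the upper densities of optimal covers both tend to `1 / 2` as `k → ∞`. -/
theorem result :
    Tendsto (fun k : ℕ => liminf (fun N : ℕ => (mRat k N : ℝ) / N) atTop) atTop (𝓝 (1 / 2)) ∧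
    Tendsto (fun k : ℕ => limsup (fun N : ℕ => (mRat k N : ℝ) / N) atTop) atTop (𝓝 (1 / 2)) := by
  refine Pool.Agent.Work.MP_af7016_co.tendsto_half IsRatGP (fun k a ha => ?_) (fun k F h => h)
  refine ⟨a, 2, by exact_mod_cast ha, by norm_num, ?_⟩
  rw [Finset.image_image]
  congr 1
  ext i
  simp

end Pool.Agent.Results.MP_af7016_co.RationalRatio
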